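import Pool.Agent.H58.FL.Targets

/-!
# MP_6a7a6f_gt: nearest points in the neighbourhood of the Kuratowski image (row NBH)
-/

set_option autoImplicit false

open Topology
open scoped ENNReal

namespace Pool.Agent.H40.FL

open Pool.Agent.H58.FL Pool.Agent.H59 Pool.Agent.H48.FR

noncomputable section

theorem dist_le_kur {M : Type} [MetricSpace M] [BoundedSpace M] (x y : M) :
    dist x y ≤ dist (kur M x) (kur M y) := by
  rw [dist_eq_norm (kur M x) (kur M y)]
  have h := lp.norm_apply_le_norm ENNReal.top_ne_zero (kur M x - kur M y) y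
  rw [lp.coeFn_sub, Pi.sub_apply, kur_apply, kur_apply, dist_self, sub_zero,
    Real.norm_of_nonneg dist_nonneg] at h
  exact h

theorem pf_NBH : T_NBH := by
  classical
  intro M _ _ ε hε
  have hnear : ∀ u : UE M ε, ∃ x : M, dist (u.1 : lp (fun _ : M => ℝ) ⊤) (kur M x) < ε := by
    intro u
    obtain ⟨z, ⟨x, rfl⟩, hz⟩ := Metric.mem_thickening_iff.1 u.2
    exact ⟨x, hz⟩
  let j : C(UE M ε, lp (fun _ : M => ℝ) ⊤) := ⟨fun u => u.1, continuous_subtype_val⟩
  let p : UE M ε → M := fun u =>
    if h : ∃ x, kf M ε hε x = u then h.choose else (hnear u).choose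
  have hp : ∀ u : UE M ε, dist (j u) (kur M (p u)) < ε := by
    intro u
    by_cases h : ∃ x, kf M ε hε x = u
    · have h1 : p u = h.choose := dif_pos h
      have h2 := h.choose_spec
      rw [h1]
      have h3 : (j u : lp (fun _ : M => ℝ) ⊤) = kur M h.choose := by
        have h4 := congrArg Subtype.val h2
        exact h4.symm
      rw [h3, dist_self]
      exact hε
    · have h1 : p u = (hnear u).choose := dif_neg h
      rw [h1]
      exact (hnear u).choose_spec
  refine ⟨j, p, ?_, ?_⟩
  · intro x
    have h : ∃ y, kf M ε hε y = kf M ε hε x := ⟨x, rfl⟩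
    have h1 : p (kf M ε hε x) = h.choose := dif_pos h
    have h2 := congrArg Subtype.val h.choose_spec
    have h3 : kur M h.choose = kur M x := h2
    rw [h1]
    have h4 := dist_le_kur h.choose x
    rw [h3, dist_self] at h4
    exact dist_le_zero.1 h4
  · intro u v
    have h1 := dist_le_kur (p u) (p v)
    have h2 := hp u
    have h3 := hp v
    have h4 : dist (kur M (p u)) (kur M (p v)) ≤
        dist (kur M (p u)) (j u) + dist (j u) (j v) + dist (j v) (kur M (p v)) :=
      dist_triangle4 _ _ _ _
    rw [dist_comm (kur M (p u)) (j u)] at h4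
    linarith

end

end Pool.Agent.H40.FL
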