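import Pool.Agent.H58.FL.Targets

/-!
# MP_6a7a6f_gt: the product formula (row PRD of the board flb_modules)
-/

set_option autoImplicit false

open Topology

namespace Pool.Agent.H40.FL

open Pool.Agent.H58.FL Pool.Agent.H59 Pool.Agent.H48.FR

noncomputable section

/-! ### Generalities -/

theorem PL_ofFn {X : Type} (k : ℕ) : ∀ (g : Fin k → X → X → X → ℝ) (x : ℕ → X),
    PL (List.ofFn g) x =
      ∏ i : Fin k, g i (x (2 * (i : ℕ))) (x (2 * (i : ℕ) + 1)) (x (2 * (i : ℕ) + 2)) := by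
  induction k with
  | zero =>
    intro g x
    simp [Pool.Agent.H58.FL.PL]
  | succ k ih =>
    intro g x
    rw [List.ofFn_succ, Fin.prod_univ_succ]
    show c2 (g 0) x * PL (List.ofFn fun i => g i.succ) (sh 2 x) = _
    rw [ih]
    congr 1
    refine Finset.prod_congr rfl fun i _ => ?_
    simp only [sh, Fin.val_succ]
    congr 2 <;> ring

theorem ev_single {X : Type} (k : ℕ) (α : Coc X) (t : Fin (k + 1) → X) (r : ℤ) :
    ev k α (Finsupp.single t r) = (r : ℝ) * α (ex t) := by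
  unfold ev
  rw [Finsupp.sum_single_index]
  simp

theorem ev_sum {X ι : Type} (k : ℕ) (α : Coc X) (s : Finset ι) (c : ι → LL (k + 1) X) :
    ev k α (∑ i ∈ s, c i) = ∑ i ∈ s, ev k α (c i) := by
  unfold ev
  symm
  apply Finsupp.sum_finsetSum_index
  · intro a
    simp
  · intro a b c
    push_cast
    ring

theorem arg_nonneg_mul (z : ℂ) : (z * (starRingEnd ℂ) z).arg = 0 := by
  rw [Complex.mul_conj]
  exact Complex.arg_ofReal_of_nonneg (Complex.normSq_nonneg _)

section geo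

variable {E : Type} [NormedAddCommGroup E] [InnerProductSpace ℂ E]

theorem inner_self_ofReal (a : E) : inner ℂ a a = ((‖a‖ ^ 2 : ℝ) : ℂ) := by
  rw [inner_self_eq_norm_sq_to_K]
  norm_cast

theorem ar_left (a b : E) : ar a a b = 0 := by
  unfold ar
  rw [inner_self_ofReal, ← inner_conj_symm b a, mul_assoc, Complex.mul_conj, ← Complex.ofReal_mul]
  exact Complex.arg_ofReal_of_nonneg (mul_nonneg (by positivity) (Complex.normSq_nonneg _))

theorem ar_right (a b : E) : ar a b b = 0 := by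
  unfold ar
  rw [inner_self_ofReal, ← inner_conj_symm b a, mul_right_comm, Complex.mul_conj,
    ← Complex.ofReal_mul]
  exact Complex.arg_ofReal_of_nonneg (mul_nonneg (Complex.normSq_nonneg _) (by positivity))

end geo

theorem ff_left (n : ℕ) (a b : CPn n) : ff n a a b = 0 := by
  unfold ff
  rw [ar_left, zero_div]

theorem ff_right (n : ℕ) (a b : CPn n) : ff n a b b = 0 := by
  unfold ff
  rw [ar_right, zero_div]

/-! ### Reindexing -/

/-- the coordinates -/
def eA (n : ℕ) : Fin n × Fin 2 ≃ Fin (2 * n) := (Equiv.prodComm _ _).trans finProdFinEquiv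

theorem eA_apply (n : ℕ) (i : Fin n) (e : Fin 2) : eA n (i, e) = pr i e := rfl

/-- the times -/
def eB (n : ℕ) : Fin n × Fin 2 ≃ Fin (2 * n) :=
  finProdFinEquiv.trans (finCongr (Nat.mul_comm n 2))

theorem eB_val (n : ℕ) (y : Fin n × Fin 2) :
    ((eB n y : Fin (2 * n)) : ℕ) = (y.2 : ℕ) + 2 * (y.1 : ℕ) := rfl

/-- the permutations -/
def eP (n : ℕ) : Equiv.Perm (Fin n × Fin 2) ≃ Equiv.Perm (Fin (2 * n)) :=
  Equiv.equivCongr (eB n) (eA n)

theorem eP_symm_apply (n : ℕ) (σ : Equiv.Perm (Fin n × Fin 2)) (i : Fin n) (e : Fin 2) :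
    (eP n σ).symm (pr i e) = eB n (σ.symm (i, e)) := by
  rw [Equiv.symm_apply_eq]
  show pr i e = ((eB n).symm.trans σ).trans (eA n) (eB n (σ.symm (i, e)))
  simp [eA_apply]

theorem sign_eP (n : ℕ) (σ : Equiv.Perm (Fin n × Fin 2)) :
    Equiv.Perm.sign (eP n σ) =
      Equiv.Perm.sign ((eB n).symm.trans (eA n)) * Equiv.Perm.sign σ := by
  have h : eP n σ = (((eB n).symm.trans σ).trans (eB n)).trans ((eB n).symm.trans (eA n)) := by
    ext y
    simp [eP, Equiv.equivCongr]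
  rw [h, Equiv.Perm.sign_trans, Equiv.Perm.sign_symm_trans_trans]

/-- the cells -/
def eX (n N : ℕ) : (Fin n → Fin 2 → Fin N) ≃ (Fin (2 * n) → Fin N) :=
  (Equiv.curry (Fin n) (Fin 2) (Fin N)).symm.trans (Equiv.arrowCongr (eA n) (Equiv.refl _))

theorem eX_apply (n N : ℕ) (X : Fin n → Fin 2 → Fin N) (i : Fin n) (e : Fin 2) :
    eX n N X (pr i e) = X i e := by
  rw [← eA_apply]
  simp [eX, Equiv.arrowCongr]

/-! ### The terms -/

/-- the three points, for the factor number `i`: coordinates `a`, `b`, times `u`, `v` -/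
def qt (N a b u v t : ℕ) : CPn 1 :=
  aP N ((a : ℝ) + if u < t then 1 else 0) ((b : ℝ) + if v < t then 1 else 0)

/-- the factor number `i` -/
def ft (N a b u v i : ℕ) : ℝ :=
  ff 1 (qt N a b u v (2 * i)) (qt N a b u v (2 * i + 1)) (qt N a b u v (2 * i + 2))

theorem qt_eq (N a b u v t : ℕ) (hu : u ≠ t) (hv : v ≠ t) :
    qt N a b u v t = qt N a b u v (t + 1) := by
  unfold qt
  have h1 : (u < t) ↔ (u < t + 1) := by omega
  have h2 : (v < t) ↔ (v < t + 1) := by omega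
  simp only [h1, h2]

theorem ft_zero (N a b u v i : ℕ) (h : (u < 2 * i ∨ 2 * i + 2 ≤ u) ∨ (v < 2 * i ∨ 2 * i + 2 ≤ v)) :
    ft N a b u v i = 0 := by
  unfold ft
  by_cases h1 : u ≠ 2 * i ∧ v ≠ 2 * i
  · rw [qt_eq N a b u v (2 * i) h1.1 h1.2]
    exact ff_left 1 _ _
  · have h2 : u ≠ 2 * i + 1 ∧ v ≠ 2 * i + 1 := by omega
    rw [qt_eq N a b u v (2 * i + 1) h2.1 h2.2]
    exact ff_right 1 _ _

theorem ft_shift (N a b u v i : ℕ) : ft N a b (u + 2 * i) (v + 2 * i) i = ft N a b u v 0 := by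
  unfold ft qt
  have h : ∀ w δ : ℕ, (w + 2 * i < 2 * i + δ) ↔ (w < 2 * 0 + δ) := by
    intro w δ
    omega
  have h0 : ∀ w : ℕ, (w + 2 * i < 2 * i) ↔ (w < 2 * 0) := by
    intro w
    omega
  simp only [h, h0]

/-- the value of the product of the cochains on a simplex of the cube -/
theorem value (n N : ℕ) (H : C(Fin (2 * n) → ℝ, Fin n → CPn 1)) (hH : ∀ y, H y = gY N y)
    (x : Fin (2 * n) → Fin N) (π : Equiv.Perm (Fin (2 * n))) :
    PL (List.ofFn fun i => fl n i) (ex (fun t : Fin (2 * n + 1) => H (fv x π t))) =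
      ∏ i : Fin n, ft N (x (pr i 0)) (x (pr i 1)) (π.symm (pr i 0)) (π.symm (pr i 1)) i := by
  rw [PL_ofFn]
  refine Finset.prod_congr rfl fun i _ => ?_
  have key : ∀ t : ℕ, t ≤ 2 * n → (ex (fun t : Fin (2 * n + 1) => H (fv x π t))) t i =
      qt N (x (pr i 0)) (x (pr i 1)) (π.symm (pr i 0)) (π.symm (pr i 1)) t := by
    intro t ht
    unfold ex
    simp only [hH]
    have hmin : min t (2 * n) = t := Nat.min_eq_left ht
    show aP N (fv x π ⟨min t (2 * n), _⟩ (pr i 0)) (fv x π ⟨min t (2 * n), _⟩ (pr i 1)) = _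
    unfold fv qt
    simp only [hmin]
  have hi := i.2
  unfold fl ft
  rw [key _ (by omega), key _ (by omega), key _ (by omega)]

/-! ### The good permutations -/

theorem exists_of_good {n : ℕ} (σ : Equiv.Perm (Fin n × Fin 2))
    (h : ∀ y, (σ.symm y).1 = y.1) : ∃ τ : Fin n → Equiv.Perm (Fin 2),
    Equiv.prodCongrRight τ = σ := by
  have h' : ∀ y, (σ y).1 = y.1 := by
    intro y
    have := h (σ y)
    rw [Equiv.symm_apply_apply] at this
    exact this.symm
  have e1 : ∀ (i : Fin n) (e : Fin 2), (i, (σ (i, e)).2) = σ (i, e) := by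
    intro i e
    exact Prod.ext (h' (i, e)).symm rfl
  have e2 : ∀ (i : Fin n) (e : Fin 2), (i, (σ.symm (i, e)).2) = σ.symm (i, e) := by
    intro i e
    exact Prod.ext (h (i, e)).symm rfl
  refine ⟨fun i => ⟨fun e => (σ (i, e)).2, fun e => (σ.symm (i, e)).2, ?_, ?_⟩, ?_⟩
  · intro e
    show (σ.symm (i, (σ (i, e)).2)).2 = e
    rw [e1, Equiv.symm_apply_apply]
  · intro e
    show (σ (i, (σ.symm (i, e)).2)).2 = e
    rw [e2, Equiv.apply_symm_apply]
  · apply Equiv.ext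
    rintro ⟨i, e⟩
    exact e1 i e

theorem prodCongrRight_symm {n : ℕ} (τ : Fin n → Equiv.Perm (Fin 2)) (i : Fin n) (e : Fin 2) :
    (Equiv.prodCongrRight τ).symm (i, e) = (i, (τ i).symm e) := rfl

theorem prodCongrRight_inj {n : ℕ} :
    Function.Injective (fun τ : Fin n → Equiv.Perm (Fin 2) => Equiv.prodCongrRight τ) := by
  intro τ τ' h
  funext i
  apply Equiv.ext
  intro e
  have h1 := congrArg (fun σ : Equiv.Perm (Fin n × Fin 2) => (σ (i, e)).2) h
  exact h1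

theorem univ_perm2 : (Finset.univ : Finset (Equiv.Perm (Fin 2))) = {1, Equiv.swap 0 1} := by
  decide

/-- the two orders of the two steps -/
theorem two_orders (N a b : ℕ) :
    ∑ ρ : Equiv.Perm (Fin 2), (((Equiv.Perm.sign ρ : ℤˣ) : ℤ) : ℝ) *
      ft N a b ((ρ.symm 0 : Fin 2) : ℕ) ((ρ.symm 1 : Fin 2) : ℕ) 0 =
      ff 1 (aP N a b) (aP N (a + 1) b) (aP N (a + 1) (b + 1)) -
        ff 1 (aP N a b) (aP N a (b + 1)) (aP N (a + 1) (b + 1)) := by
  rw [univ_perm2, Finset.sum_pair (by decide)]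
  have h1 : (((1 : Equiv.Perm (Fin 2)).symm 0 : Fin 2) : ℕ) = 0 := rfl
  have h2 : (((1 : Equiv.Perm (Fin 2)).symm 1 : Fin 2) : ℕ) = 1 := rfl
  have h3 : (((Equiv.swap (0 : Fin 2) 1).symm 0 : Fin 2) : ℕ) = 1 := rfl
  have h4 : (((Equiv.swap (0 : Fin 2) 1).symm 1 : Fin 2) : ℕ) = 0 := rfl
  rw [h1, h2, h3, h4]
  have h5 : Equiv.Perm.sign (Equiv.swap (0 : Fin 2) 1) = -1 := by
    apply Equiv.Perm.sign_swap
    decide
  rw [h5, Equiv.Perm.sign_one]
  unfold ft qt
  norm_num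
  ring

theorem pf_PRD (hCEL : T_CEL) (hEVL : T_EVL) (hPER : T_PER) (hLOW : T_LOW) : T_PRD := by
  classical
  clear hEVL hPER hLOW
  intro n N H hH
  obtain ⟨_, _, _, hvx⟩ := hCEL (Fin n → CPn 1) (2 * n) N H
  set s0 : ℤˣ := Equiv.Perm.sign ((eB n).symm.trans (eA n)) with hs0
  refine ⟨(((s0 : ℤˣ) : ℤ) : ℝ), ?_, ?_⟩
  · rcases Int.units_eq_one_or s0 with h | h
    · left
      rw [h]
      norm_num
    · right
      rw [h]
      norm_num
  rw [hvx, ev_sum]
  -- the double sum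
  have step1 : ∀ x : Fin (2 * n) → Fin N,
      ev (2 * n) (PL (List.ofFn fun i => fl n i)) (∑ π : Equiv.Perm (Fin (2 * n)),
        Finsupp.single (fun t => H (fv x π t)) ((Equiv.Perm.sign π : ℤˣ) : ℤ)) =
      ∑ π : Equiv.Perm (Fin (2 * n)), (((Equiv.Perm.sign π : ℤˣ) : ℤ) : ℝ) *
        ∏ i : Fin n, ft N (x (pr i 0)) (x (pr i 1)) (π.symm (pr i 0)) (π.symm (pr i 1)) i := by
    intro x
    rw [ev_sum]
    refine Finset.sum_congr rfl fun π _ => ?_
    rw [ev_single, value n N H hH]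
  rw [Finset.sum_congr rfl fun x _ => step1 x]
  rw [← Equiv.sum_comp (eX n N)]
  -- the permutations
  have step2 : ∀ X : Fin n → Fin 2 → Fin N,
      (∑ π : Equiv.Perm (Fin (2 * n)), (((Equiv.Perm.sign π : ℤˣ) : ℤ) : ℝ) *
        ∏ i : Fin n, ft N (eX n N X (pr i 0)) (eX n N X (pr i 1)) (π.symm (pr i 0))
          (π.symm (pr i 1)) i) =
      (((s0 : ℤˣ) : ℤ) : ℝ) * ∏ i : Fin n, ∑ ρ : Equiv.Perm (Fin 2),
        (((Equiv.Perm.sign ρ : ℤˣ) : ℤ) : ℝ) *
          ft N (X i 0) (X i 1) ((ρ.symm 0 : Fin 2) : ℕ) ((ρ.symm 1 : Fin 2) : ℕ) 0 := by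
    intro X
    rw [← Equiv.sum_comp (eP n)]
    simp only [eX_apply, eP_symm_apply, sign_eP, ← hs0]
    rw [Finset.prod_univ_sum, Fintype.piFinset_univ, Finset.mul_sum]
    symm
    apply Fintype.sum_of_injective (fun τ : Fin n → Equiv.Perm (Fin 2) => Equiv.prodCongrRight τ)
      prodCongrRight_inj
    · intro σ hσ
      have hbad : ∃ y, (σ.symm y).1 ≠ y.1 := by
        by_contra hcon
        push Not at hcon
        obtain ⟨τ, hτ⟩ := exists_of_good σ hcon
        exact hσ ⟨τ, hτ⟩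
      obtain ⟨⟨i, e⟩, hy⟩ := hbad
      have hz : ft N (X i 0) (X i 1) (eB n (σ.symm (i, 0))) (eB n (σ.symm (i, 1))) i = 0 := by
        apply ft_zero
        rw [eB_val, eB_val]
        have hne : ((σ.symm (i, e)).1 : ℕ) ≠ (i : ℕ) := fun h => hy (Fin.ext h)
        have l0 := (σ.symm (i, 0)).2.2
        have l1 := (σ.symm (i, 1)).2.2
        fin_cases e
        · left
          have hne' : ((σ.symm (i, 0)).1 : ℕ) ≠ (i : ℕ) := hne
          omega
        · right
          have hne' : ((σ.symm (i, 1)).1 : ℕ) ≠ (i : ℕ) := hne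
          omega
      rw [Finset.prod_eq_zero (Finset.mem_univ i) hz, mul_zero]
    · intro τ
      rw [Equiv.Perm.sign_prodCongrRight, Finset.prod_mul_distrib]
      simp only [prodCongrRight_symm, eB_val]
      rw [← mul_assoc]
      refine congrArg₂ (fun a b : ℝ => a * b) ?_ ?_
      · push_cast
        ring
      · refine Finset.prod_congr rfl fun i _ => ?_
        exact (ft_shift N _ _ _ _ _).symm
  rw [Finset.sum_congr rfl fun X _ => step2 X, ← Finset.mul_sum]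
  congr 1
  -- the product of sums
  simp only [two_orders]
  have step3 : ∀ (g : (Fin 2 → Fin N) → ℝ),
      ∑ X : Fin n → Fin 2 → Fin N, ∏ i : Fin n, g (X i) = (∑ Y : Fin 2 → Fin N, g Y) ^ n := by
    intro g
    have h := (Finset.prod_univ_sum (fun _ : Fin n => (Finset.univ : Finset (Fin 2 → Fin N)))
      (fun _ Y => g Y)).symm
    rw [Fintype.piFinset_univ] at h
    rw [h, Finset.prod_const, Finset.card_univ, Fintype.card_fin]
  have h4 := step3 (fun Y => ff 1 (aP N ((Y 0 : Fin N) : ℕ) ((Y 1 : Fin N) : ℕ))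
      (aP N (((Y 0 : Fin N) : ℕ) + 1) ((Y 1 : Fin N) : ℕ))
      (aP N (((Y 0 : Fin N) : ℕ) + 1) (((Y 1 : Fin N) : ℕ) + 1)) -
    ff 1 (aP N ((Y 0 : Fin N) : ℕ) ((Y 1 : Fin N) : ℕ))
      (aP N ((Y 0 : Fin N) : ℕ) (((Y 1 : Fin N) : ℕ) + 1))
      (aP N (((Y 0 : Fin N) : ℕ) + 1) (((Y 1 : Fin N) : ℕ) + 1)))
  rw [h4]
  congr 1
  unfold dg
  rw [← Equiv.sum_comp (finTwoArrowEquiv (Fin N)).symm, Fintype.sum_prod_type, Finset.sum_range]
  refine Finset.sum_congr rfl fun a _ => ?_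
  rw [Finset.sum_range]
  refine Finset.sum_congr rfl fun b _ => ?_
  rfl

end

end Pool.Agent.H40.FL
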