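import Pool.Agent.H40.FL.PRD

/-!
# MP_6a7a6f_gt: words which omit a letter (row WRD of the board flb_modules)
-/

set_option autoImplicit false

open Topology

namespace Pool.Agent.H40.FL

open Pool.Agent.H58.FL Pool.Agent.H59 Pool.Agent.H48.FR

noncomputable section

/-- the value of a product of the cochains on a simplex of the cube -/
theorem valueW (n N : ℕ) (H : C(Fin (2 * n) → ℝ, Fin n → CPn 1)) (hH : ∀ y, H y = gY N y)
    (w : Fin n → Fin n) (x : Fin (2 * n) → Fin N) (π : Equiv.Perm (Fin (2 * n))) :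
    PL (List.ofFn fun i => fl n (w i)) (ex (fun t : Fin (2 * n + 1) => H (fv x π t))) =
      ∏ i : Fin n, ft N (x (pr (w i) 0)) (x (pr (w i) 1)) (π.symm (pr (w i) 0))
        (π.symm (pr (w i) 1)) i := by
  rw [PL_ofFn]
  refine Finset.prod_congr rfl fun i _ => ?_
  have key : ∀ t : ℕ, t ≤ 2 * n → (ex (fun t : Fin (2 * n + 1) => H (fv x π t))) t (w i) =
      qt N (x (pr (w i) 0)) (x (pr (w i) 1)) (π.symm (pr (w i) 0)) (π.symm (pr (w i) 1)) t := by
    intro t ht
    unfold ex
    simp only [hH]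
    have hmin : min t (2 * n) = t := Nat.min_eq_left ht
    show aP N (fv x π ⟨min t (2 * n), _⟩ (pr (w i) 0)) (fv x π ⟨min t (2 * n), _⟩ (pr (w i) 1)) = _
    unfold fv qt
    simp only [hmin]
  have hi := i.2
  unfold fl ft
  rw [key _ (by omega), key _ (by omega), key _ (by omega)]

theorem pr_inj {n : ℕ} {i l : Fin n} {e e' : Fin 2} (h : pr i e = pr l e') : i = l := by
  unfold pr at h
  have := finProdFinEquiv.injective h
  exact congrArg Prod.snd this

theorem pr_inj' {n : ℕ} {i l : Fin n} {e e' : Fin 2} (h : pr i e = pr l e') : e = e' := by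
  unfold pr at h
  have := finProdFinEquiv.injective h
  exact congrArg Prod.fst this

theorem pf_WRD (hCEL : T_CEL) (hEVL : T_EVL) : T_WRD := by
  classical
  clear hEVL
  intro n N H hH w l hw
  obtain ⟨_, _, _, hvx⟩ := hCEL (Fin n → CPn 1) (2 * n) N H
  rw [hvx, ev_sum]
  refine Finset.sum_eq_zero fun x _ => ?_
  rw [ev_sum]
  have step1 : ∀ π : Equiv.Perm (Fin (2 * n)),
      ev (2 * n) (PL (List.ofFn fun i => fl n (w i)))
        (Finsupp.single (fun t => H (fv x π t)) ((Equiv.Perm.sign π : ℤˣ) : ℤ)) =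
      (((Equiv.Perm.sign π : ℤˣ) : ℤ) : ℝ) *
        ∏ i : Fin n, ft N (x (pr (w i) 0)) (x (pr (w i) 1)) (π.symm (pr (w i) 0))
          (π.symm (pr (w i) 1)) i := by
    intro π
    rw [ev_single, valueW n N H hH]
  rw [Finset.sum_congr rfl fun π _ => step1 π]
  set s : Equiv.Perm (Fin (2 * n)) := Equiv.swap (pr l 0) (pr l 1) with hs
  have hne : pr l (0 : Fin 2) ≠ pr l 1 := fun h => absurd (pr_inj' h) (by decide)
  set f : Equiv.Perm (Fin (2 * n)) → ℝ := fun π => (((Equiv.Perm.sign π : ℤˣ) : ℤ) : ℝ) *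
        ∏ i : Fin n, ft N (x (pr (w i) 0)) (x (pr (w i) 1)) (π.symm (pr (w i) 0))
          (π.symm (pr (w i) 1)) i with hf
  have hinv : ∀ π, f (s * π) = - f π := by
    intro π
    have h1 : ∀ (i : Fin n) (e : Fin 2), (s * π).symm (pr (w i) e) = π.symm (pr (w i) e) := by
      intro i e
      have h2 : s (pr (w i) e) = pr (w i) e := by
        rw [hs]
        apply Equiv.swap_apply_of_ne_of_ne
        · intro h
          exact hw i (pr_inj h)
        · intro h
          exact hw i (pr_inj h)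
      rw [Equiv.symm_apply_eq]
      show _ = s (π (π.symm (pr (w i) e)))
      rw [Equiv.apply_symm_apply, h2]
    have h3 : Equiv.Perm.sign (s * π) = - Equiv.Perm.sign π := by
      rw [Equiv.Perm.sign_mul, hs, Equiv.Perm.sign_swap hne, neg_one_mul]
    simp only [hf, h1, h3]
    push_cast
    ring
  have hsum : ∑ π, f π = ∑ π, f (s * π) := (Equiv.sum_comp (Equiv.mulLeft s) f).symm
  have h4 : ∑ π, f (s * π) = - ∑ π, f π := by
    rw [← Finset.sum_neg_distrib]
    exact Finset.sum_congr rfl fun π _ => hinv π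
  linarith

end

end Pool.Agent.H40.FL
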