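import Pool.Agent.H58.FL.TargetsD

/-!
# Four monopoles around a hub are impossible (row R5A of fld_modules)
-/

open Pool.Agent.H58.FL Pool.Agent.H59 Pool.Agent.H48.FR

namespace Pool.Agent.H40.FL

theorem cl_comp {E : Type} [NormedAddCommGroup E] [InnerProductSpace ℂ E] {n m : ℕ}
    (p : Fin n → E) (hp : Cl p) (s : Fin m → Fin n) : Cl (fun i => p (s i)) :=
  ⟨fun i => hp.1 (s i), fun i j => hp.2 (s i) (s j)⟩

theorem mn_mul {E : Type} [NormedAddCommGroup E] [InnerProductSpace ℂ E] (a b c d : E) :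
    2 * Real.pi * mn a b c d = ar b c d - ar a c d + ar a b d - ar a b c := by
  unfold mn
  rw [mul_div_cancel₀]
  exact (mul_pos two_pos Real.pi_pos).ne'

theorem pf_R5A (hW4 : T_W4) (hMN4 : T_MN4) (hOP2 : T_OP2) : T_R5A := by
  intro E _ _ p hp h123 h124 h134 h234
  obtain ⟨hA, hB, hC⟩ := hMN4 E
  have hpi := Real.pi_pos
  -- the triples
  have tri : ∀ i j k : Fin 5, ar (p i) (p k) (p j) = -ar (p i) (p j) (p k) ∧
      |ar (p i) (p j) (p k)| < 7 * Real.pi / 10 := by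
    intro i j k
    have h := hA (fun l => p (![i, j, k] l)) (cl_comp p hp ![i, j, k])
    exact ⟨h.2.1, h.2.2.2.2.2⟩
  -- the quadruples
  have quad : ∀ i j k l : Fin 5, mn (p i) (p j) (p k) (p l) = 0 ∨
      mn (p i) (p j) (p k) (p l) = 1 ∨ mn (p i) (p j) (p k) (p l) = -1 := by
    intro i j k l
    exact (hB (fun a => p (![i, j, k, l] a)) (cl_comp p hp ![i, j, k, l])).1
  -- far
  have far1 : ∀ i j k : Fin 5, mn (p 0) (p i) (p j) (p k) ≠ 0 →
      Fr (p 0) (p i) ∧ Fr (p 0) (p j) ∧ Fr (p 0) (p k) := by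
    intro i j k hne
    have h := hOP2 E (fun a => p (![0, i, j, k] a)) (cl_comp p hp ![0, i, j, k]) hne
    exact ⟨h 0 1 (by decide), h 0 2 (by decide), h 0 3 (by decide)⟩
  have f1 := (far1 1 2 3 h123).1
  have f2 := (far1 1 2 3 h123).2.1
  have f3 := (far1 1 2 3 h123).2.2
  have f4 := (far1 1 2 4 h124).2.2
  have sp : ∀ i : Fin 5, Fr (p 0) (p i) → Sp (p 0) (p i) := fun i hi =>
    ⟨hp.1 i, hp.2 0 i, hi⟩
  have W : ∀ i j k l : Fin 5, Fr (p 0) (p i) → Fr (p 0) (p j) → Fr (p 0) (p k) →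
      Fr (p 0) (p l) → ar (p 0) (p i) (p j) + ar (p 0) (p j) (p k) + ar (p 0) (p k) (p l) +
        ar (p 0) (p l) (p i) < 2 * Real.pi := fun i j k l hi hj hk hl =>
    hW4 E (p 0) (p i) (p j) (p k) (p l) (hp.1 0) (sp i hi) (sp j hj) (sp k hk) (sp l hl)
      (hp.2 i j) (hp.2 j k) (hp.2 k l) (hp.2 l i)
  have a21 := (tri 0 1 2).1
  have a31 := (tri 0 1 3).1
  have a41 := (tri 0 1 4).1
  have a32 := (tri 0 2 3).1
  have a42 := (tri 0 2 4).1
  have a43 := (tri 0 3 4).1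
  have w1 := W 1 2 3 4 f1 f2 f3 f4
  have w2 := W 4 3 2 1 f4 f3 f2 f1
  have w3 := W 1 2 4 3 f1 f2 f4 f3
  have w4 := W 3 4 2 1 f3 f4 f2 f1
  have w5 := W 1 3 2 4 f1 f3 f2 f4
  have w6 := W 4 2 3 1 f4 f2 f3 f1
  have b123 := abs_lt.1 (tri 1 2 3).2
  have b124 := abs_lt.1 (tri 1 2 4).2
  have b134 := abs_lt.1 (tri 1 3 4).2
  have e123 := mn_mul (p 0) (p 1) (p 2) (p 3)
  have e124 := mn_mul (p 0) (p 1) (p 2) (p 4)
  have e134 := mn_mul (p 0) (p 1) (p 3) (p 4)
  have hc := hC (p 0) (p 1) (p 2) (p 3) (p 4)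
  rw [a21] at w2 w4
  rw [a31] at w3 w6
  rw [a32] at w2 w5
  rw [a41] at w1 w5
  rw [a42] at w4 w6
  rw [a43] at w2 w3
  clear W sp far1 tri hA hB hC hOP2 hW4 hMN4 a21 a31 a41 a32 a42 a43
  rcases quad 0 1 2 3 with h | h | h
  · exact h123 h
  all_goals
    rw [h] at e123 hc
    rcases quad 0 1 2 4 with h' | h' | h'
    · exact h124 h'
    all_goals
      rw [h'] at e124 hc
      rcases quad 0 1 3 4 with h'' | h'' | h''
      · exact h134 h''
      all_goals
        rw [h''] at e134 hc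
        first
        | linarith
        | (rcases quad 0 2 3 4 with k | k | k
           · exact h234 k
           all_goals
             rw [k] at hc
             rcases quad 1 2 3 4 with k' | k' | k' <;> rw [k'] at hc <;> linarith)

end Pool.Agent.H40.FL
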